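import Pool.Agent.H71.PF.Defs

/-!
# The tame prefix vocabulary classes
-/

set_option autoImplicit false

namespace Pool.Agent.H71.PF

/-- The tame classes (prefix `π`, function symbols in `F`, relation symbols of arity `1, …, r`): the
prefixes `∃…∃` and `∀∃…∃`; at most one function symbol, which is unary, and relation symbols of arity
one or a prefix `∃…∃∀∃…∃`; no function symbols and a prefix `∃…∃∀…∀`. -/
def Tame (π : List Bool) (F : ℕ → ℕ → Prop) (r : ℕ) : Prop :=
  (∃ b, π = List.replicate b false ∨ π = true :: List.replicate b false) ∨
  (Few F ∧ (r ≤ 1 ∨ ∃ a b, π = List.replicate a false ++ true :: List.replicate b false)) ∨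
  ((∀ i k, ¬ F i k) ∧ ∃ a b, π = List.replicate a false ++ List.replicate b true)

end Pool.Agent.H71.PF
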