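import Mathlib

/-!
# Prefix vocabulary classes of first-order sentences and their spectra
-/

set_option autoImplicit false

namespace Pool.Agent.H71.PF

/-- Terms. Variables and function symbols are named by numbers; `app i ts` is the function symbol
`i` of arity `k` applied to the `k` terms `ts`. -/
inductive Tm : Type
  | var (x : ℕ) : Tm
  | app (i : ℕ) {k : ℕ} (ts : Fin k → Tm) : Tm

/-- Quantifier-free formulas. Relation symbols are named by numbers; a relation symbol is applied to
a list of terms. -/
inductive QF : Type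
  | rel (i : ℕ) (ts : List Tm) : QF
  | eq (s t : Tm) : QF
  | neg (φ : QF) : QF
  | and (φ ψ : QF) : QF

/-- Only the variables `0, …, k - 1` occur. -/
def Tm.Vars (k : ℕ) : Tm → Prop
  | .var x => x < k
  | .app _ ts => ∀ j, (ts j).Vars k

/-- All function symbols are in `F` (`F i k`: the symbol `i` of arity `k`). -/
def Tm.Voc (F : ℕ → ℕ → Prop) : Tm → Prop
  | .var _ => True
  | @Tm.app i k ts => F i k ∧ ∀ j, (ts j).Voc F

/-- Only the variables `0, …, k - 1` occur. -/
def QF.Vars (k : ℕ) : QF → Prop
  | .rel _ ts => ∀ t ∈ ts, t.Vars k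
  | .eq s t => s.Vars k ∧ t.Vars k
  | .neg φ => φ.Vars k
  | .and φ ψ => φ.Vars k ∧ ψ.Vars k

/-- All function symbols are in `F`, and all relation symbols are of arity `1, …, r`. -/
def QF.Voc (F : ℕ → ℕ → Prop) (r : ℕ) : QF → Prop
  | .rel _ ts => 1 ≤ ts.length ∧ ts.length ≤ r ∧ ∀ t ∈ ts, t.Voc F
  | .eq s t => s.Voc F ∧ t.Voc F
  | .neg φ => φ.Voc F r
  | .and φ ψ => φ.Voc F r ∧ ψ.Voc F r

section
variable {α : Type} (f : ℕ → List α → α) (R : ℕ → List α → Prop)

/-- The value of a term; `f` interprets the function symbols. -/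
def Tm.val (v : ℕ → α) : Tm → α
  | .var x => v x
  | .app i ts => f i (List.ofFn fun j => (ts j).val v)

/-- Satisfaction of a quantifier-free formula in the structure with the functions `f` and the
relations `R`. -/
def QF.Sat (v : ℕ → α) : QF → Prop
  | .rel i ts => R i (ts.map (Tm.val f v))
  | .eq s t => s.val f v = t.val f v
  | .neg φ => ¬ φ.Sat v
  | .and φ ψ => φ.Sat v ∧ ψ.Sat v

/-- Satisfaction of the formula with the quantifier prefix `π` (`true` is a universal quantifier,
`false` is an existential quantifier) and the quantifier-free formula `φ`; the quantifiers bind the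
variables `k, k + 1, …`. -/
def Pre (φ : QF) : List Bool → ℕ → (ℕ → α) → Prop
  | [], _, v => φ.Sat f R v
  | true :: π, k, v => ∀ a, Pre φ π (k + 1) (Function.update v k a)
  | false :: π, k, v => ∃ a, Pre φ π (k + 1) (Function.update v k a)

end

/-- The spectrum: the sizes of the finite models of the sentence with the prefix `π` and the
quantifier-free formula `φ`. -/
def Spec (π : List Bool) (φ : QF) : Set ℕ :=
  {n | 0 < n ∧ ∃ (f : ℕ → List (Fin n) → Fin n) (R : ℕ → List (Fin n) → Prop),
    ∀ v : ℕ → Fin n, Pre f R φ π 0 v}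

/-- The spectra of the sentences with the prefix `π`, function symbols in `F` and relation symbols
of arity `1, …, r`. -/
def Cl (π : List Bool) (F : ℕ → ℕ → Prop) (r : ℕ) : Set (Set ℕ) :=
  {S | ∃ φ : QF, φ.Vars π.length ∧ φ.Voc F r ∧ Spec π φ = S}

/-- There is at most one function symbol, and it is unary. -/
def Few (F : ℕ → ℕ → Prop) : Prop := ∃ i, ∀ j k, F j k → j = i ∧ k = 1

/-- The easy classes: the prefixes `∃…∃` and `∀∃…∃`, all function and relation symbols; the prefixes
`∃…∃∀∃…∃`, at most one unary function symbol, all relation symbols; the prefixes `∃…∃∀…∀`, no function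
symbols, all relation symbols; all prefixes, no function symbols, unary relation symbols. -/
def Easy (π : List Bool) (F : ℕ → ℕ → Prop) (r : ℕ) : Prop :=
  (∃ b, π = List.replicate b false ∨ π = true :: List.replicate b false) ∨
  (Few F ∧ ∃ a b, π = List.replicate a false ++ true :: List.replicate b false) ∨
  ((∀ i k, ¬ F i k) ∧ (r ≤ 1 ∨ ∃ a b, π = List.replicate a false ++ List.replicate b true))

/-- `S` is eventually periodic. -/
def Periodic (S : Set ℕ) : Prop := ∃ p N : ℕ, 0 < p ∧ ∀ n, N ≤ n → (n ∈ S ↔ n + p ∈ S)

end Pool.Agent.H71.PF
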